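import Mathlib
import Pool.Agent.Helper540.Near

set_option autoImplicit false

namespace Pool.Agent.Results.MP_eccde5_an.SharpPure

open Metric Set Filter Topology Pool.Agent.Helper540

/-- The family `N_A`, `A = diag(lam, 1)`, on the Euclidean unit ball of `ℂ^2`. -/
def familyN (lam : ℝ) : Set (EuclideanSpace ℂ (Fin 2) → EuclideanSpace ℂ (Fin 2)) :=
  {h | DifferentiableOn ℂ h (ball 0 1) ∧ h 0 = 0 ∧
    (∀ v : EuclideanSpace ℂ (Fin 2), fderiv ℂ h 0 v = !₂[(lam : ℂ) * v 0, v 1]) ∧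
    ∀ z ∈ ball (0 : EuclideanSpace ℂ (Fin 2)) 1, z ≠ 0 → 0 < (inner ℂ z (h z)).re}

/-- The coefficient `q^1_{0,k}` of `z_2^k` in the first component. -/
noncomputable def coefA (k : ℕ) (h : EuclideanSpace ℂ (Fin 2) → EuclideanSpace ℂ (Fin 2)) : ℂ :=
  ((k.factorial : ℂ)⁻¹) * iteratedDeriv k (fun ζ : ℂ => (h !₂[0, ζ]) 0) 0

/-- The coefficient `q^2_{k,0}` of `z_1^k` in the second component. -/
noncomputable def coefB (k : ℕ) (h : EuclideanSpace ℂ (Fin 2) → EuclideanSpace ℂ (Fin 2)) : ℂ :=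
  ((k.factorial : ℂ)⁻¹) * iteratedDeriv k (fun ζ : ℂ => (h !₂[ζ, 0]) 1) 0

/-- The minimising parameter for the first coefficient. -/
noncomputable def parA (lam : ℝ) (k : ℕ) : ℝ :=
  2 / (lam + k + Real.sqrt ((lam + k) ^ 2 + 4 * (lam - 1) * (k - 1)))

/-- The sharp bound for `q^1_{0,k}`. -/
noncomputable def boundA (lam : ℝ) (k : ℕ) : ℝ :=
  (1 + (lam - 1) * parA lam k) / (Real.sqrt (parA lam k) * Real.sqrt (1 - parA lam k) ^ k)

/-- The minimising parameter for the second coefficient. -/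
noncomputable def parB (lam : ℝ) (k : ℕ) : ℝ :=
  2 * lam / (lam * k + 1 + Real.sqrt ((lam * k + 1) ^ 2 - 4 * lam * (lam - 1) * (k - 1)))

/-- The sharp bound for `q^2_{k,0}`. -/
noncomputable def boundB (lam : ℝ) (k : ℕ) : ℝ :=
  (lam - (lam - 1) * parB lam k) / (Real.sqrt (parB lam k) * Real.sqrt (1 - parB lam k) ^ k)

section RealPart

/-- Position of the critical point. -/
theorem crit_spec {al be : ℝ} {k : ℕ} (hal : 0 < al) (hbe : 0 < be) (hk : 2 ≤ k)
    (hdisc : 0 ≤ (be * k + al) ^ 2 + 4 * (al - be) * be * (k - 1)) {s : ℝ}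
    (hs : s = 2 * be / (be * k + al +
      Real.sqrt ((be * k + al) ^ 2 + 4 * (al - be) * be * (k - 1)))) :
    0 < s ∧ s < 1 ∧ (al - be) * (k - 1) * s ^ 2 + (be * k + al) * s - be = 0 := by
  have hk' : (2 : ℝ) ≤ k := by exact_mod_cast hk
  set b : ℝ := be * k + al with hb
  set d : ℝ := Real.sqrt (b ^ 2 + 4 * (al - be) * be * (k - 1)) with hd
  have hd0 : 0 ≤ d := Real.sqrt_nonneg _
  have hd2 : d ^ 2 = b ^ 2 + 4 * (al - be) * be * (k - 1) := Real.sq_sqrt hdisc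
  have hb2 : 2 * be < b := by rw [hb]; nlinarith
  have hbd : 0 < b + d := by linarith
  have hbd' : b + d ≠ 0 := hbd.ne'
  refine ⟨by rw [hs]; positivity, by rw [hs, div_lt_one hbd]; linarith, ?_⟩
  have hsb : s * (b + d) = 2 * be := by rw [hs, div_mul_cancel₀ _ hbd']
  have h1 : ((al - be) * (k - 1) * s ^ 2 + b * s - be) * (b + d) ^ 2 = 0 := by
    have : ((al - be) * (k - 1) * s ^ 2 + b * s - be) * (b + d) ^ 2 =
        (al - be) * (k - 1) * (s * (b + d)) ^ 2 + b * (s * (b + d)) * (b + d) -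
          be * (b + d) ^ 2 := by ring
    rw [this, hsb]
    nlinarith [hd2]
  exact (mul_eq_zero.1 h1).resolve_right (pow_ne_zero 2 hbd')

/-- The maximum of `s (1-s)^k / (be + (al-be) s)^2` on `[0,1]`. -/
theorem max_spec {al be : ℝ} {k : ℕ} (hal : 0 < al) (hbe : 0 < be) (hk : 2 ≤ k)
    (hab : 0 < be * (2 - k) + al * (2 * k - 1)) {s₀ : ℝ} (h0 : 0 < s₀) (h1 : s₀ < 1)
    (hcrit : (al - be) * (k - 1) * s₀ ^ 2 + (be * k + al) * s₀ - be = 0) {s : ℝ}
    (hs0 : 0 ≤ s) (hs1 : s ≤ 1) :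
    s * (1 - s) ^ k / (be + (al - be) * s) ^ 2 ≤
      s₀ * (1 - s₀) ^ k / (be + (al - be) * s₀) ^ 2 := by
  have hk' : (2 : ℝ) ≤ k := by exact_mod_cast hk
  have hN : ∀ x : ℝ, 0 ≤ x → x ≤ 1 → 0 < be + (al - be) * x := by
    intro x hx0 hx1
    have : be + (al - be) * x = be * (1 - x) + al * x := by ring
    rw [this]
    rcases hx0.eq_or_lt with h | h
    · rw [← h]; simpa using hbe
    · have := mul_nonneg hbe.le (sub_nonneg.2 hx1)
      have := mul_pos hal h
      linarith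
  set G : ℝ → ℝ := fun x => x * (1 - x) ^ k / (be + (al - be) * x) ^ 2 with hG
  set Q : ℝ → ℝ := fun x => be - (be * k + al) * x - (al - be) * (k - 1) * x ^ 2 with hQ
  have hder : ∀ x : ℝ, 0 ≤ x → x ≤ 1 →
      HasDerivAt G ((1 - x) ^ (k - 1) * Q x / (be + (al - be) * x) ^ 3) x := by
    intro x hx0 hx1
    have hNx := hN x hx0 hx1
    have d1 : HasDerivAt (fun x : ℝ => (1 - x) ^ k) (k * (1 - x) ^ (k - 1) * (-1)) x := by
      have := ((hasDerivAt_id x).const_sub 1).fun_pow k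
      simpa using this
    have d2 : HasDerivAt (fun x : ℝ => (be + (al - be) * x) ^ 2)
        (2 * (be + (al - be) * x) * (al - be)) x := by
      have := (((hasDerivAt_id x).const_mul (al - be)).const_add be).fun_pow 2
      simpa using this
    have d3 := ((hasDerivAt_id x).mul d1).div d2 (pow_ne_zero 2 hNx.ne')
    refine d3.congr_deriv ?_
    have e1 : (1 - x) ^ k = (1 - x) * (1 - x) ^ (k - 1) := by
      rw [← pow_succ']; congr 1; omega
    simp only [id, Pi.mul_apply, hQ]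
    rw [e1]
    have hne := hNx.ne'
    field_simp
    ring
  have hQs : ∀ x : ℝ, Q x = (s₀ - x) * ((be * k + al) + (al - be) * (k - 1) * (x + s₀)) := by
    intro x
    simp only [hQ]
    linear_combination (-1 : ℝ) * hcrit
  have hpos : ∀ x : ℝ, 0 ≤ x → x ≤ 1 →
      0 < (be * k + al) + (al - be) * (k - 1) * (x + s₀) := by
    intro x hx0 hx1
    rcases le_or_gt 0 (al - be) with h | h
    · have := mul_nonneg (mul_nonneg h (by linarith : (0 : ℝ) ≤ k - 1))
        (by linarith : 0 ≤ x + s₀)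
      nlinarith
    · have h2 : (al - be) * (k - 1) * (x + s₀) ≥ (al - be) * (k - 1) * 2 := by
        have h3 : (al - be) * (k - 1) ≤ 0 :=
          mul_nonpos_of_nonpos_of_nonneg h.le (by linarith)
        nlinarith
      nlinarith
  have hcont : ContinuousOn G (Icc 0 1) := fun x hx =>
    (hder x hx.1 hx.2).continuousAt.continuousWithinAt
  rcases le_or_gt s s₀ with hle | hgt
  · have hmono : MonotoneOn G (Icc 0 s₀) := by
      apply monotoneOn_of_deriv_nonneg (convex_Icc _ _)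
        (hcont.mono (Icc_subset_Icc_right h1.le))
      · intro x hx
        rw [interior_Icc] at hx
        exact (hder x hx.1.le (hx.2.trans h1).le).differentiableAt.differentiableWithinAt
      · intro x hx
        rw [interior_Icc] at hx
        rw [(hder x hx.1.le (hx.2.trans h1).le).deriv, hQs]
        have h2 := hpos x hx.1.le (hx.2.trans h1).le
        have h3 := hN x hx.1.le (hx.2.trans h1).le
        have h4 : 0 ≤ 1 - x := by linarith [hx.2]
        have h5 : 0 ≤ s₀ - x := by linarith [hx.2]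
        positivity
    exact hmono ⟨hs0, hle⟩ ⟨h0.le, le_rfl⟩ hle
  · have hanti : AntitoneOn G (Icc s₀ 1) := by
      apply antitoneOn_of_deriv_nonpos (convex_Icc _ _)
        (hcont.mono (Icc_subset_Icc_left h0.le))
      · intro x hx
        rw [interior_Icc] at hx
        exact (hder x (h0.trans hx.1).le hx.2.le).differentiableAt.differentiableWithinAt
      · intro x hx
        rw [interior_Icc] at hx
        rw [(hder x (h0.trans hx.1).le hx.2.le).deriv, hQs]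
        have h2 := hpos x (h0.trans hx.1).le hx.2.le
        have h3 := hN x (h0.trans hx.1).le hx.2.le
        have h4 : 0 ≤ 1 - x := by linarith [hx.2]
        have h5 : s₀ - x ≤ 0 := by linarith [hx.1]
        apply div_nonpos_of_nonpos_of_nonneg _ (by positivity)
        apply mul_nonpos_of_nonneg_of_nonpos (by positivity)
        exact mul_nonpos_of_nonpos_of_nonneg h5 h2.le
    exact hanti ⟨le_rfl, h1.le⟩ ⟨hgt.le, hs1⟩ hgt.le

/-- The bound as a function of the two weights. -/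
noncomputable def bd (al be s : ℝ) (k : ℕ) : ℝ :=
  (be + (al - be) * s) / (Real.sqrt s * Real.sqrt (1 - s) ^ k)

/-- The basic inequality satisfied by the bound. -/
theorem bd_ineq {al be : ℝ} {k : ℕ} (hal : 0 < al) (hbe : 0 < be) (hk : 2 ≤ k)
    (hab : 0 < be * (2 - k) + al * (2 * k - 1)) {s₀ : ℝ} (h0 : 0 < s₀) (h1 : s₀ < 1)
    (hcrit : (al - be) * (k - 1) * s₀ ^ 2 + (be * k + al) * s₀ - be = 0) {x y : ℝ}
    (hx : 0 ≤ x) (hy : 0 ≤ y) (hxy : 0 < x ^ 2 + y ^ 2) :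
    bd al be s₀ k * (x * y ^ k) ≤
      (al * x ^ 2 + be * y ^ 2) * Real.sqrt (x ^ 2 + y ^ 2) ^ (k - 1) := by
  set N : ℝ := x ^ 2 + y ^ 2 with hN
  set s : ℝ := x ^ 2 / N with hs
  have hs0 : 0 ≤ s := by positivity
  have h1s : 1 - s = y ^ 2 / N := by
    rw [hs, eq_div_iff hxy.ne', sub_mul, div_mul_cancel₀ _ hxy.ne', hN]; ring
  have hs1 : s ≤ 1 := by
    have : 0 ≤ 1 - s := by rw [h1s]; positivity
    linarith
  have hmax := max_spec hal hbe hk hab h0 h1 hcrit hs0 hs1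
  have hNs : 0 < be + (al - be) * s := by
    have : be + (al - be) * s = be * (1 - s) + al * s := by ring
    rw [this]
    rcases hs0.eq_or_lt with h | h
    · rw [← h]; simpa using hbe
    · have := mul_nonneg hbe.le (sub_nonneg.2 hs1)
      have := mul_pos hal h
      linarith
  have hNs₀ : 0 < be + (al - be) * s₀ := by
    have : be + (al - be) * s₀ = be * (1 - s₀) + al * s₀ := by ring
    rw [this]
    have := mul_pos hbe (sub_pos.2 h1)
    have := mul_pos hal h0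
    linarith
  have h1s₀ : 0 < 1 - s₀ := by linarith
  rw [div_le_div_iff₀ (by positivity) (by positivity)] at hmax
  -- square both sides
  have hbd2 : bd al be s₀ k ^ 2 = (be + (al - be) * s₀) ^ 2 / (s₀ * (1 - s₀) ^ k) := by
    rw [bd, div_pow, mul_pow, Real.sq_sqrt h0.le, ← pow_mul, mul_comm k 2, pow_mul,
      Real.sq_sqrt h1s₀.le]
  have hbd0 : 0 ≤ bd al be s₀ k := by rw [bd]; positivity
  have hx2 : x ^ 2 = s * N := by rw [hs]; field_simp
  have hy2 : y ^ 2 = (1 - s) * N := by rw [h1s]; field_simp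
  have hlin : al * x ^ 2 + be * y ^ 2 = (be + (al - be) * s) * N := by rw [hx2, hy2]; ring
  have hsq : (bd al be s₀ k * (x * y ^ k)) ^ 2 ≤
      ((al * x ^ 2 + be * y ^ 2) * Real.sqrt N ^ (k - 1)) ^ 2 := by
    have e1 : (bd al be s₀ k * (x * y ^ k)) ^ 2 =
        bd al be s₀ k ^ 2 * (s * (1 - s) ^ k) * N ^ (k + 1) := by
      rw [mul_pow, mul_pow, ← pow_mul, mul_comm k 2, pow_mul, hy2, hx2, mul_pow]
      ring
    have e2 : ((al * x ^ 2 + be * y ^ 2) * Real.sqrt N ^ (k - 1)) ^ 2 =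
        (be + (al - be) * s) ^ 2 * N ^ (k + 1) := by
      rw [hlin, mul_pow, mul_pow, ← pow_mul, mul_comm (k - 1) 2, pow_mul, Real.sq_sqrt hxy.le,
        mul_assoc, ← pow_add]
      congr 2
      omega
    rw [e1, e2, hbd2]
    apply mul_le_mul_of_nonneg_right _ (by positivity)
    rw [div_mul_eq_mul_div, div_le_iff₀ (by positivity)]
    linarith
  have hR0 : 0 ≤ (al * x ^ 2 + be * y ^ 2) * Real.sqrt N ^ (k - 1) := by positivity
  exact (pow_le_pow_iff_left₀ (by positivity) hR0 two_ne_zero).1 hsq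

end RealPart

section ComplexPart

theorem re_circleAverage_nonneg {G : ℂ → ℂ} {r : ℝ} (hr : 0 < r) (hG : CircleIntegrable G 0 r)
    (h : ∀ z : ℂ, ‖z‖ = r → 0 ≤ (G z).re) : 0 ≤ (Real.circleAverage G 0 r).re := by
  have h1 := Complex.reCLM.circleAverage_comp_comm hG
  have h2 : 0 ≤ Real.circleAverage (Complex.reCLM ∘ G) 0 r := by
    apply Real.circleAverage_nonneg_of_nonneg
    intro z hz
    simp only [abs_of_pos hr, mem_sphere_iff_norm, sub_zero] at hz
    simpa using h z hz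
  rw [h1] at h2
  simpa using h2

theorem sum_two {i j : Fin 2} (hij : i ≠ j) {M : Type*} [AddCommMonoid M] (f : Fin 2 → M) :
    ∑ l, f l = f i + f j := by
  have h1 : (Finset.univ : Finset (Fin 2)) = {i, j} := by
    ext l
    simp only [Finset.mem_univ, Finset.mem_insert, Finset.mem_singleton, true_iff]
    omega
  rw [h1, Finset.sum_pair hij]

theorem inner_two {i j : Fin 2} (hij : i ≠ j) (z w : EuclideanSpace ℂ (Fin 2)) :
    inner ℂ z w = (starRingEnd ℂ) (z i) * w i + (starRingEnd ℂ) (z j) * w j := by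
  rw [PiLp.inner_apply, sum_two hij]
  simp [mul_comm]

theorem normsq_two {i j : Fin 2} (hij : i ≠ j) (z : EuclideanSpace ℂ (Fin 2)) :
    ‖z‖ ^ 2 = ‖z i‖ ^ 2 + ‖z j‖ ^ 2 := by
  rw [EuclideanSpace.norm_sq_eq, sum_two hij]

/-- Upper bound by averaging along the curve `ζ y e_j - ζ^k x φ e_i`. -/
theorem avg_bound {i j : Fin 2} (hij : i ≠ j) {al be : ℝ}
    {h : EuclideanSpace ℂ (Fin 2) → EuclideanSpace ℂ (Fin 2)}
    (hd : DifferentiableOn ℂ h (ball 0 1)) (h0 : h 0 = 0)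
    (hi : ∀ v, (fderiv ℂ h 0 v) i = al * v i) (hj : ∀ v, (fderiv ℂ h 0 v) j = be * v j)
    (hpos : ∀ z ∈ ball (0 : EuclideanSpace ℂ (Fin 2)) 1, 0 ≤ (inner ℂ z (h z)).re) {k : ℕ}
    (hk : 2 ≤ k) {x y : ℝ} (hx : 0 ≤ x) (hy : 0 ≤ y) (hxy : x ^ 2 + y ^ 2 = 1) :
    x * y ^ k * ‖tc k (fun ζ : ℂ => (h (ζ • EuclideanSpace.single j (1 : ℂ))) i)‖ ≤
      al * x ^ 2 + be * y ^ 2 := by
  set q : ℂ := tc k (fun ζ : ℂ => (h (ζ • EuclideanSpace.single j (1 : ℂ))) i) with hq
  obtain ⟨φ, hφ1, hφ⟩ : ∃ φ : ℂ, ‖φ‖ = 1 ∧ (starRingEnd ℂ) φ * q = ‖q‖ := by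
    rcases eq_or_ne q 0 with h | h
    · exact ⟨1, by simp, by simp [h]⟩
    · have hn : (‖q‖ : ℂ) ≠ 0 := by exact_mod_cast (norm_pos_iff.2 h).ne'
      refine ⟨q / ‖q‖, ?_, ?_⟩
      · rw [norm_div, Complex.norm_real, norm_norm, div_self (norm_pos_iff.2 h).ne']
      · rw [map_div₀, Complex.conj_ofReal, div_mul_eq_mul_div, mul_comm, Complex.mul_conj,
          Complex.normSq_eq_norm_sq]
        push_cast
        field_simp
  set a : EuclideanSpace ℂ (Fin 2) := (y : ℂ) • EuclideanSpace.single j (1 : ℂ) with ha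
  set v : EuclideanSpace ℂ (Fin 2) := (-(x * φ) : ℂ) • EuclideanSpace.single i (1 : ℂ) with hv
  set z : ℂ → EuclideanSpace ℂ (Fin 2) := fun ζ => ζ • a + ζ ^ k • v with hz
  have hzi : ∀ ζ, z ζ i = -(x * φ) * ζ ^ k := by
    intro ζ
    simp [hz, ha, hv, hij]
    ring
  have hzj : ∀ ζ, z ζ j = y * ζ := by
    intro ζ
    simp [hz, ha, hv, hij.symm]
    ring
  have hzn : ∀ ζ, ‖z ζ‖ ^ 2 = x ^ 2 * (‖ζ‖ ^ k) ^ 2 + y ^ 2 * ‖ζ‖ ^ 2 := by
    intro ζ
    rw [normsq_two hij, hzi, hzj, norm_mul, norm_mul, norm_neg, norm_mul, hφ1, norm_pow,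
      Complex.norm_real, Complex.norm_real, Real.norm_of_nonneg hx, Real.norm_of_nonneg hy]
    ring
  have hzb : ∀ ζ : ℂ, ‖ζ‖ < 1 → z ζ ∈ ball (0 : EuclideanSpace ℂ (Fin 2)) 1 := by
    intro ζ hζ
    rw [mem_ball_zero_iff]
    have h1 : (‖ζ‖ ^ k) ^ 2 ≤ ‖ζ‖ ^ 2 := by
      have : ‖ζ‖ ^ k ≤ ‖ζ‖ := by
        calc ‖ζ‖ ^ k ≤ ‖ζ‖ ^ 1 := pow_le_pow_of_le_one (norm_nonneg _) hζ.le (by omega)
          _ = ‖ζ‖ := pow_one _
      gcongr
    have h2 : ‖z ζ‖ ^ 2 ≤ ‖ζ‖ ^ 2 := by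
      rw [hzn]
      nlinarith [sq_nonneg x, sq_nonneg y]
    have h3 : ‖z ζ‖ ≤ ‖ζ‖ := (pow_le_pow_iff_left₀ (norm_nonneg _) (norm_nonneg _) two_ne_zero).1 h2
    exact h3.trans_lt hζ
  set H : ℂ → EuclideanSpace ℂ (Fin 2) := fun ζ => h (z ζ) with hH
  have hHd : DifferentiableOn ℂ H (ball 0 1) := by
    intro ζ hζ
    have h3 : DifferentiableAt ℂ z ζ := by simp only [hz]; fun_prop
    exact ((hd.differentiableAt (isOpen_ball.mem_nhds (hzb ζ (by simpa using hζ)))).comp ζ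
      h3).differentiableWithinAt
  have hproj : ∀ (l : Fin 2) {f : ℂ → EuclideanSpace ℂ (Fin 2)} {n : ℕ}, ContDiffAt ℂ n f 0 →
      tc n (fun ζ => f ζ l) = (tc n f) l := by
    intro l f n hf
    exact tc_clm (EuclideanSpace.proj l : EuclideanSpace ℂ (Fin 2) →L[ℂ] ℂ) n hf
  have hcl : ∀ l : Fin 2, DifferentiableOn ℂ (fun ζ => H ζ l) (ball 0 1) := fun l =>
    (EuclideanSpace.proj l : EuclideanSpace ℂ (Fin 2) →L[ℂ] ℂ).differentiable.comp_differentiableOn
      hHd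
  have hsl : DifferentiableOn ℂ (fun ζ : ℂ => h (ζ • EuclideanSpace.single j (1 : ℂ)))
      (ball 0 1) := by
    intro ζ hζ
    have hζ' : ‖ζ‖ < 1 := by simpa using hζ
    have h2 : ζ • EuclideanSpace.single j (1 : ℂ) ∈ ball (0 : EuclideanSpace ℂ (Fin 2)) 1 := by
      rw [mem_ball_zero_iff, norm_smul]
      simpa using hζ'
    have h3 : DifferentiableAt ℂ (fun ζ : ℂ => ζ • EuclideanSpace.single (𝕜 := ℂ) j (1 : ℂ)) ζ := by
      fun_prop
    exact ((hd.differentiableAt (isOpen_ball.mem_nhds h2)).comp ζ h3).differentiableWithinAt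
  have htk : tc k (fun ζ => H ζ i) = (y : ℂ) ^ k * q - al * (x * φ) := by
    rw [hproj i (contDiffAt_of_ball one_pos hHd k)]
    have h4 : tc k H = tc k (fun ζ : ℂ => h (ζ • a)) + fderiv ℂ h 0 v := tc_curve one_pos hd hk a v
    have h5 : tc k (fun ζ : ℂ => h (ζ • a)) =
        (y : ℂ) ^ k • tc k (fun ζ : ℂ => h (ζ • EuclideanSpace.single j (1 : ℂ))) := by
      rw [← tc_comp_smul one_pos hsl k (y : ℂ)]
      simp only [ha, smul_smul, smul_eq_mul]
    rw [h4, h5, PiLp.add_apply, PiLp.smul_apply, hi,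
      ← hproj i (contDiffAt_of_ball one_pos hsl k), ← hq]
    simp [hv]
    ring
  have ht1 : tc 1 (fun ζ => H ζ j) = be * y := by
    rw [hproj j (contDiffAt_of_ball one_pos hHd 1)]
    have h4 : tc 1 H = fderiv ℂ h 0 a := tc_one_curve one_pos hd hk a v
    rw [h4, hj]
    simp [ha]
  have hr : ∀ r : ℝ, 0 < r → r < 1 →
      r ^ (2 * k) * (x * y ^ k * ‖q‖) ≤ al * x ^ 2 * r ^ (2 * k) + be * y ^ 2 * r ^ 2 := by
    intro r hr0 hr1
    have hdc : ∀ l : Fin 2, DiffContOnCl ℂ (fun ζ => H ζ l) (ball 0 r) := by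
      intro l
      apply DifferentiableOn.diffContOnCl
      rw [closure_ball _ hr0.ne']
      exact (hcl l).mono (closedBall_subset_ball hr1)
    have havg : ∀ (l : Fin 2) (n : ℕ),
        Real.circleAverage (fun ζ => (ζ ^ n)⁻¹ * H ζ l) 0 r = tc n (fun ζ => H ζ l) := by
      intro l n
      simpa using tc_circleAverage hr0 n (hdc l)
    have hcont : ∀ l : Fin 2, ContinuousOn (fun ζ => H ζ l) (sphere 0 r) := by
      intro l
      apply (hcl l).continuousOn.mono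
      intro ζ hζ
      have : ‖ζ‖ = r := by simpa using hζ
      simpa [this] using hr1
    have hinv : ∀ n : ℕ, ContinuousOn (fun ζ : ℂ => (ζ ^ n)⁻¹) (sphere 0 r) := by
      intro n
      apply ContinuousOn.inv₀ (by fun_prop)
      intro ζ hζ
      have : ‖ζ‖ = r := by simpa using hζ
      apply pow_ne_zero
      intro h7
      rw [h7, norm_zero] at this
      linarith
    have hci : ∀ {f : ℂ → ℂ}, ContinuousOn f (sphere 0 r) → CircleIntegrable f 0 r := by
      intro f hf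
      exact ContinuousOn.circleIntegrable hr0.le hf
    have i1 : CircleIntegrable (fun ζ => (ζ ^ k)⁻¹ * H ζ i) 0 r := hci ((hinv k).mul (hcont i))
    have i2 : CircleIntegrable (fun ζ => (ζ ^ 1)⁻¹ * H ζ j) 0 r := hci ((hinv 1).mul (hcont j))
    have j1 := i1.const_fun_smul (a := (-(x * (starRingEnd ℂ) φ) * r ^ (2 * k) : ℂ))
    have j2 := i2.const_fun_smul (a := (y * r ^ 2 : ℂ))
    set G : ℂ → ℂ := (fun ζ => (-(x * (starRingEnd ℂ) φ) * r ^ (2 * k) : ℂ) • ((ζ ^ k)⁻¹ * H ζ i)) +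
      (fun ζ => (y * r ^ 2 : ℂ) • ((ζ ^ 1)⁻¹ * H ζ j)) with hG
    have hGi : CircleIntegrable G 0 r := j1.add j2
    have hGavg : Real.circleAverage G 0 r =
        (-(x * (starRingEnd ℂ) φ) * r ^ (2 * k) : ℂ) • ((y : ℂ) ^ k * q - al * (x * φ)) +
          (y * r ^ 2 : ℂ) • (be * y : ℂ) := by
      rw [hG, Real.circleAverage_add j1 j2, Real.circleAverage_fun_smul,
        Real.circleAverage_fun_smul, havg, havg, htk, ht1]
    have hGpos : ∀ ζ : ℂ, ‖ζ‖ = r → 0 ≤ (G ζ).re := by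
      intro ζ hζ
      have hζ0 : ζ ≠ 0 := by
        intro h7
        rw [h7, norm_zero] at hζ
        linarith
      have hc1 : (starRingEnd ℂ) ζ = r ^ 2 * ζ⁻¹ := by
        have : ζ * (starRingEnd ℂ) ζ = r ^ 2 := by
          rw [Complex.mul_conj, Complex.normSq_eq_norm_sq, hζ]; push_cast; rfl
        field_simp
        rw [mul_comm]
        exact this
      have e1 : G ζ = inner ℂ (z ζ) (H ζ) := by
        rw [inner_two hij, hzi, hzj]
        simp only [hG, Pi.add_apply, smul_eq_mul, map_mul, map_neg, map_pow, Complex.conj_ofReal,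
          hc1, mul_pow, inv_pow, pow_one]
        rw [← pow_mul]
        ring
      rw [e1]
      exact hpos _ (hzb ζ (by rw [hζ]; exact hr1))
    have hfin := re_circleAverage_nonneg hr0 hGi hGpos
    rw [hGavg] at hfin
    have hφφ : (starRingEnd ℂ) φ * φ = 1 := by
      rw [mul_comm, Complex.mul_conj, Complex.normSq_eq_norm_sq, hφ1]; simp
    have e2 : (-(x * (starRingEnd ℂ) φ) * r ^ (2 * k) : ℂ) • ((y : ℂ) ^ k * q - al * (x * φ)) +
          (y * r ^ 2 : ℂ) • (be * y : ℂ) =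
        ((al * x ^ 2 * r ^ (2 * k) + be * y ^ 2 * r ^ 2 - r ^ (2 * k) * (x * y ^ k * ‖q‖) : ℝ) : ℂ) := by
      simp only [smul_eq_mul]
      push_cast
      linear_combination (-(x : ℂ) * r ^ (2 * k) * y ^ k) * hφ + (al * (x : ℂ) ^ 2 * r ^ (2 * k)) * hφφ
    rw [e2, Complex.ofReal_re] at hfin
    linarith
  have hl1 : Tendsto (fun r : ℝ => r ^ (2 * k) * (x * y ^ k * ‖q‖)) (𝓝[<] 1)
      (𝓝 ((1 : ℝ) ^ (2 * k) * (x * y ^ k * ‖q‖))) := by
    apply Tendsto.mono_left _ nhdsWithin_le_nhds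
    apply Continuous.tendsto
    fun_prop
  have hl2 : Tendsto (fun r : ℝ => al * x ^ 2 * r ^ (2 * k) + be * y ^ 2 * r ^ 2) (𝓝[<] 1)
      (𝓝 (al * x ^ 2 * (1 : ℝ) ^ (2 * k) + be * y ^ 2 * (1 : ℝ) ^ 2)) := by
    apply Tendsto.mono_left _ nhdsWithin_le_nhds
    apply Continuous.tendsto
    fun_prop
  have hfin := le_of_tendsto_of_tendsto hl1 hl2 (by
    filter_upwards [Ioo_mem_nhdsLT (zero_lt_one (α := ℝ))] with r hr'
    exact hr r hr'.1 hr'.2)
  simpa using hfin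

/-- The extremal polynomial map. -/
noncomputable def extm (i j : Fin 2) (al be B : ℝ) (k : ℕ) :
    EuclideanSpace ℂ (Fin 2) → EuclideanSpace ℂ (Fin 2) :=
  fun z => (al * z i + B * (z j) ^ k : ℂ) • EuclideanSpace.single i (1 : ℂ) +
    (be * z j : ℂ) • EuclideanSpace.single j (1 : ℂ)

theorem extm_i {i j : Fin 2} (hij : i ≠ j) (al be B : ℝ) (k : ℕ) (z : EuclideanSpace ℂ (Fin 2)) :
    extm i j al be B k z i = al * z i + B * (z j) ^ k := by
  simp [extm, hij]

theorem extm_j {i j : Fin 2} (hij : i ≠ j) (al be B : ℝ) (k : ℕ) (z : EuclideanSpace ℂ (Fin 2)) :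
    extm i j al be B k z j = be * z j := by
  simp [extm, hij.symm]

theorem hasFDerivAt_proj (j : Fin 2) (z : EuclideanSpace ℂ (Fin 2)) :
    HasFDerivAt (fun z : EuclideanSpace ℂ (Fin 2) => z j)
      (EuclideanSpace.proj j : EuclideanSpace ℂ (Fin 2) →L[ℂ] ℂ) z :=
  (EuclideanSpace.proj j : EuclideanSpace ℂ (Fin 2) →L[ℂ] ℂ).hasFDerivAt

theorem extm_deriv (i j : Fin 2) (al be B : ℝ) (k : ℕ) (z : EuclideanSpace ℂ (Fin 2)) :
    HasFDerivAt (extm i j al be B k)
      (((al : ℂ) • (EuclideanSpace.proj i : EuclideanSpace ℂ (Fin 2) →L[ℂ] ℂ) +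
        (B : ℂ) • ((k : ℂ) * (z j) ^ (k - 1)) •
          (EuclideanSpace.proj j : EuclideanSpace ℂ (Fin 2) →L[ℂ] ℂ)).smulRight
            (EuclideanSpace.single i (1 : ℂ)) +
        ((be : ℂ) • (EuclideanSpace.proj j : EuclideanSpace ℂ (Fin 2) →L[ℂ] ℂ)).smulRight
          (EuclideanSpace.single j (1 : ℂ))) z := by
  have h1 := ((hasFDerivAt_proj j z).pow k).const_mul (B : ℂ)
  have h2 := (hasFDerivAt_proj i z).const_mul (al : ℂ)
  have h3 := (h2.add h1).smul_const (EuclideanSpace.single i (1 : ℂ))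
  have h4 := ((hasFDerivAt_proj j z).const_mul (be : ℂ)).smul_const
    (EuclideanSpace.single j (1 : ℂ))
  refine (h3.add h4).congr_fderiv ?_
  ext w l
  simp

theorem extm_pos {i j : Fin 2} (hij : i ≠ j) {al be B : ℝ} (hal : 0 < al) (hbe : 0 < be)
    (hB : 0 ≤ B) {k : ℕ} (hk : 2 ≤ k)
    (hineq : ∀ x y : ℝ, 0 ≤ x → 0 ≤ y → 0 < x ^ 2 + y ^ 2 → B * (x * y ^ k) ≤
      (al * x ^ 2 + be * y ^ 2) * Real.sqrt (x ^ 2 + y ^ 2) ^ (k - 1))
    {z : EuclideanSpace ℂ (Fin 2)} (hz : z ∈ ball (0 : EuclideanSpace ℂ (Fin 2)) 1)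
    (hz0 : z ≠ 0) : 0 < (inner ℂ z (extm i j al be B k z)).re := by
  rw [mem_ball_zero_iff] at hz
  have hzp : 0 < ‖z‖ := norm_pos_iff.2 hz0
  have hN := normsq_two hij z
  have hNp : 0 < ‖z i‖ ^ 2 + ‖z j‖ ^ 2 := by rw [← hN]; positivity
  have e1 : inner ℂ z (extm i j al be B k z) =
      ((al * ‖z i‖ ^ 2 + be * ‖z j‖ ^ 2 : ℝ) : ℂ) +
        (B : ℂ) * ((z j) ^ k * (starRingEnd ℂ) (z i)) := by
    rw [inner_two hij, extm_i hij, extm_j hij]
    have h1 : ∀ l, (starRingEnd ℂ) (z l) * z l = ((‖z l‖ ^ 2 : ℝ) : ℂ) := by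
      intro l
      rw [mul_comm, Complex.mul_conj, Complex.normSq_eq_norm_sq]
    push_cast
    have h2 := h1 i
    have h3 := h1 j
    push_cast at h2 h3
    linear_combination (al : ℂ) * h2 + (be : ℂ) * h3
  rw [e1, Complex.add_re, Complex.ofReal_re, Complex.re_ofReal_mul]
  have e2 : -(‖z j‖ ^ k * ‖z i‖) ≤ ((z j) ^ k * (starRingEnd ℂ) (z i)).re := by
    have := Complex.abs_re_le_norm ((z j) ^ k * (starRingEnd ℂ) (z i))
    rw [norm_mul, norm_pow, Complex.norm_conj] at this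
    linarith [neg_abs_le ((z j) ^ k * (starRingEnd ℂ) (z i)).re]
  have e3 := hineq ‖z i‖ ‖z j‖ (norm_nonneg _) (norm_nonneg _) hNp
  rw [← hN, Real.sqrt_sq hzp.le] at e3
  have e4 : ‖z‖ ^ (k - 1) < 1 := pow_lt_one₀ hzp.le hz (by omega)
  have e5 : 0 < al * ‖z i‖ ^ 2 + be * ‖z j‖ ^ 2 := by
    have h1 := sq_nonneg ‖z i‖
    have h2 := sq_nonneg ‖z j‖
    rcases h1.eq_or_lt with h | h
    · rw [← h] at hNp ⊢
      have : 0 < ‖z j‖ ^ 2 := by linarith
      have := mul_pos hbe this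
      linarith
    · have := mul_pos hal h
      have := mul_nonneg hbe.le h2
      linarith
  nlinarith [mul_le_mul_of_nonneg_left e2 hB]

theorem tc_extm {i j : Fin 2} (hij : i ≠ j) (al be B : ℝ) {k : ℕ} :
    tc k (fun ζ : ℂ => (extm i j al be B k (ζ • EuclideanSpace.single j (1 : ℂ))) i) = B := by
  have e1 : (fun ζ : ℂ => (extm i j al be B k (ζ • EuclideanSpace.single j (1 : ℂ))) i) =
      fun ζ : ℂ => ζ ^ k • (B : ℂ) := by
    ext1 ζ
    rw [extm_i hij]
    simp [hij]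
    ring
  rw [e1, tc_pow_smul, if_pos rfl]

/-- The two-weight version of the result. -/
theorem main {i j : Fin 2} (hij : i ≠ j) {al be : ℝ} {k : ℕ} (hal : 0 < al) (hbe : 0 < be)
    (hk : 2 ≤ k) (hab : 0 < be * (2 - k) + al * (2 * k - 1)) {s₀ : ℝ} (h0 : 0 < s₀) (h1 : s₀ < 1)
    (hcrit : (al - be) * (k - 1) * s₀ ^ 2 + (be * k + al) * s₀ - be = 0) :
    IsGreatest ((fun h => ‖tc k (fun ζ : ℂ => (h (ζ • EuclideanSpace.single j (1 : ℂ))) i)‖) ''
      {h : EuclideanSpace ℂ (Fin 2) → EuclideanSpace ℂ (Fin 2) |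
        DifferentiableOn ℂ h (ball 0 1) ∧ h 0 = 0 ∧
        (∀ v, (fderiv ℂ h 0 v) i = al * v i ∧ (fderiv ℂ h 0 v) j = be * v j) ∧
        ∀ z ∈ ball (0 : EuclideanSpace ℂ (Fin 2)) 1, z ≠ 0 → 0 < (inner ℂ z (h z)).re})
      (bd al be s₀ k) := by
  have h1s : 0 < 1 - s₀ := by linarith
  have hNs₀ : 0 < be + (al - be) * s₀ := by
    have : be + (al - be) * s₀ = be * (1 - s₀) + al * s₀ := by ring
    rw [this]
    have := mul_pos hbe (sub_pos.2 h1)
    have := mul_pos hal h0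
    linarith
  have hbd0 : 0 ≤ bd al be s₀ k := by rw [bd]; positivity
  constructor
  · refine ⟨extm i j al be (bd al be s₀ k) k, ⟨fun z _ =>
      (extm_deriv i j al be _ k z).differentiableAt.differentiableWithinAt, ?_, ?_, ?_⟩, ?_⟩
    · have : k ≠ 0 := by omega
      simp [extm, this]
    · intro v
      have hk1 : k - 1 ≠ 0 := by omega
      rw [(extm_deriv i j al be _ k 0).fderiv]
      constructor
      · simp [hij, hk1]
      · simp [hij.symm, hk1]
    · intro z hz hz0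
      exact extm_pos hij hal hbe hbd0 hk (fun x y hx hy hxy =>
        bd_ineq hal hbe hk hab h0 h1 hcrit hx hy hxy) hz hz0
    · simp only
      rw [tc_extm hij al be _, Complex.norm_real, Real.norm_of_nonneg hbd0]
  · rintro _ ⟨h, ⟨hd, hh0, hder, hpos⟩, rfl⟩
    have hpos' : ∀ z ∈ ball (0 : EuclideanSpace ℂ (Fin 2)) 1, 0 ≤ (inner ℂ z (h z)).re := by
      intro z hz
      rcases eq_or_ne z 0 with h2 | h2
      · simp [h2]
      · exact (hpos z hz h2).le
    have key := avg_bound hij hd hh0 (fun v => (hder v).1) (fun v => (hder v).2) hpos' hk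
      (Real.sqrt_nonneg s₀) (Real.sqrt_nonneg (1 - s₀))
      (by rw [Real.sq_sqrt h0.le, Real.sq_sqrt h1s.le]; ring)
    simp only
    rw [Real.sq_sqrt h0.le, Real.sq_sqrt h1s.le] at key
    rw [bd, le_div_iff₀ (by positivity)]
    linarith

end ComplexPart

/-- Sharp bounds for the off-diagonal pure coefficients of the family `N_A`. -/
theorem result (lam : ℝ) (h1 : 1 ≤ lam) (h2 : lam < 2) (k : ℕ) (hk : 2 ≤ k) :
    IsGreatest ((fun h => ‖coefA k h‖) '' familyN lam) (boundA lam k) ∧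
    IsGreatest ((fun h => ‖coefB k h‖) '' familyN lam) (boundB lam k) := by
  have hk' : (2 : ℝ) ≤ k := by exact_mod_cast hk
  have hdA : 0 ≤ ((1 : ℝ) * k + lam) ^ 2 + 4 * (lam - 1) * 1 * (k - 1) := by
    have : 0 ≤ (lam - 1) * ((k : ℝ) - 1) := mul_nonneg (by linarith) (by linarith)
    nlinarith [sq_nonneg ((1 : ℝ) * k + lam)]
  have hdB : 0 ≤ (lam * k + 1) ^ 2 + 4 * (1 - lam) * lam * ((k : ℝ) - 1) := by
    have : (lam * k + 1) ^ 2 + 4 * (1 - lam) * lam * ((k : ℝ) - 1) =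
        lam ^ 2 * ((k : ℝ) - 2) ^ 2 + 2 * lam * (3 * k - 2) + 1 := by ring
    rw [this]
    have : 0 ≤ lam * (3 * (k : ℝ) - 2) := mul_nonneg (by linarith) (by linarith)
    nlinarith [sq_nonneg (lam * ((k : ℝ) - 2))]
  have hsA : parA lam k = 2 * 1 / (1 * k + lam +
      Real.sqrt ((1 * k + lam) ^ 2 + 4 * (lam - 1) * 1 * (k - 1))) := by
    rw [parA]; ring_nf
  have hsB : parB lam k = 2 * lam / (lam * k + 1 +
      Real.sqrt ((lam * k + 1) ^ 2 + 4 * (1 - lam) * lam * (k - 1))) := by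
    rw [parB]
    congr 3
    ring
  obtain ⟨a0, a1, a2⟩ := crit_spec (al := lam) (be := 1) (by linarith) one_pos hk hdA hsA
  obtain ⟨b0, b1, b2⟩ := crit_spec (al := 1) (be := lam) one_pos (by linarith) hk hdB hsB
  have mA := main (i := 0) (j := 1) (by decide) (al := lam) (be := 1) (k := k) (by linarith)
    one_pos hk (by nlinarith) a0 a1 a2
  have mB := main (i := 1) (j := 0) (by decide) (al := 1) (be := lam) (k := k) one_pos
    (by linarith) hk (by nlinarith) b0 b1 b2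
  have fA : ∀ h : EuclideanSpace ℂ (Fin 2) → EuclideanSpace ℂ (Fin 2),
      coefA k h = tc k (fun ζ : ℂ => (h (ζ • EuclideanSpace.single 1 (1 : ℂ))) 0) := by
    intro h
    have e : ∀ ζ : ℂ, (!₂[0, ζ] : EuclideanSpace ℂ (Fin 2)) =
        ζ • EuclideanSpace.single 1 (1 : ℂ) := by
      intro ζ
      ext l
      fin_cases l <;> simp
    rw [coefA, tc, smul_eq_mul]
    simp only [e]
  have fB : ∀ h : EuclideanSpace ℂ (Fin 2) → EuclideanSpace ℂ (Fin 2),
      coefB k h = tc k (fun ζ : ℂ => (h (ζ • EuclideanSpace.single 0 (1 : ℂ))) 1) := by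
    intro h
    have e : ∀ ζ : ℂ, (!₂[ζ, 0] : EuclideanSpace ℂ (Fin 2)) =
        ζ • EuclideanSpace.single 0 (1 : ℂ) := by
      intro ζ
      ext l
      fin_cases l <;> simp
    rw [coefB, tc, smul_eq_mul]
    simp only [e]
  have hvec : ∀ (w : EuclideanSpace ℂ (Fin 2)) (a b : ℂ), w = !₂[a, b] ↔ (w 0 = a ∧ w 1 = b) := by
    intro w a b
    constructor
    · intro h; rw [h]; simp
    · intro h
      ext l
      fin_cases l
      · simpa using h.1
      · simpa using h.2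
  constructor
  · have e1 : familyN lam = {h : EuclideanSpace ℂ (Fin 2) → EuclideanSpace ℂ (Fin 2) |
        DifferentiableOn ℂ h (ball 0 1) ∧ h 0 = 0 ∧
        (∀ v, (fderiv ℂ h 0 v) 0 = lam * v 0 ∧ (fderiv ℂ h 0 v) 1 = ((1 : ℝ) : ℂ) * v 1) ∧
        ∀ z ∈ ball (0 : EuclideanSpace ℂ (Fin 2)) 1, z ≠ 0 → 0 < (inner ℂ z (h z)).re} := by
      ext h
      simp only [familyN, mem_ofPred_eq, hvec, Complex.ofReal_one, one_mul]
    have e2 : boundA lam k = bd lam 1 (parA lam k) k := rfl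
    rw [e1, e2]
    simp only [fA]
    exact mA
  · have e1 : familyN lam = {h : EuclideanSpace ℂ (Fin 2) → EuclideanSpace ℂ (Fin 2) |
        DifferentiableOn ℂ h (ball 0 1) ∧ h 0 = 0 ∧
        (∀ v, (fderiv ℂ h 0 v) 1 = ((1 : ℝ) : ℂ) * v 1 ∧ (fderiv ℂ h 0 v) 0 = lam * v 0) ∧
        ∀ z ∈ ball (0 : EuclideanSpace ℂ (Fin 2)) 1, z ≠ 0 → 0 < (inner ℂ z (h z)).re} := by
      ext h
      simp only [familyN, mem_ofPred_eq, hvec, Complex.ofReal_one, one_mul]
      constructor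
      · rintro ⟨a, b, c, d⟩
        exact ⟨a, b, fun v => (c v).symm, d⟩
      · rintro ⟨a, b, c, d⟩
        exact ⟨a, b, fun v => (c v).symm, d⟩
    have e2 : boundB lam k = bd 1 lam (parB lam k) k := by
      rw [boundB, bd]; congr 1; ring
    rw [e1, e2]
    simp only [fB]
    exact mB

end Pool.Agent.Results.MP_eccde5_an.SharpPure
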